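import Pool.Agent.Q166.FS.BS

/-!
# The product of a binary grammar and a finite automaton with erasing moves

Part of the characterisation of the families `FSPDA n` (MP_a569f2_lc; theorem of helper230, written by
helper166).
-/

set_option autoImplicit false

namespace Pool.Agent.Q166.FS

open Q222.FS

/-- A finite automaton with erasing moves. -/
structure Au (E : Type) where
  /-- the states -/
  Q : Type
  finQ : Finite Q
  /-- the transitions -/
  tr : Q → Option E → Q → Prop
  /-- the initial states -/
  I : Q → Prop
  /-- the final states -/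
  F : Q → Prop

/-- the paths of an automaton -/
inductive Au.Path {E : Type} (A : Au E) : A.Q → List E → A.Q → Prop
  | nil (p : A.Q) : Path A p [] p
  | cons {p m q : A.Q} {o : Option E} {w : List E} : A.tr p o m → Path A m w q →
      Path A p (o.toList ++ w) q

/-- the kinds of the nonterminals of the product -/
inductive Kd (N E : Type) : Type
  | nt (s : N) : Kd N E
  | idl : Kd N E
  | lt (o : Option E) : Kd N E
  | lti (o : Option E) : Kd N E

theorem Kd.fin {N E : Type} [Finite N] [Finite E] : Finite (Kd N E) := by
  refine Finite.of_injective (β := Option N ⊕ (Option E ⊕ Option E))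
    (fun k => match k with
      | .nt s => .inl (some s)
      | .idl => .inl none
      | .lt o => .inr (.inl o)
      | .lti o => .inr (.inr o)) ?_
  intro k k' h
  cases k <;> cases k' <;> simp_all

section

variable {B E : Type} (G : BS B) (A : Au E) (er : E → Option B)

/-- the binary rules of the product -/
inductive PB : A.Q × Kd G.N E × A.Q → A.Q × Kd G.N E × A.Q → A.Q × Kd G.N E × A.Q → Prop
  | bb {s l r : G.N} {p m q : A.Q} : G.bin s l r → PB (p, .nt s, q) (p, .nt l, m) (m, .nt r, q)
  | bl {s : G.N} {b : B} {e : E} {p m q : A.Q} : G.lf s (some b) → er e = some b →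
      PB (p, .nt s, q) (p, .idl, m) (m, .lti (some e), q)
  | be {s : G.N} {p m q : A.Q} : G.lf s none → PB (p, .nt s, q) (p, .idl, m) (m, .idl, q)
  | bi {o : Option E} {p m q : A.Q} : o.bind er = none →
      PB (p, .idl, q) (p, .lt o, m) (m, .idl, q)
  | bt {o : Option E} {p m q : A.Q} : PB (p, .lti o, q) (p, .lt o, m) (m, .idl, q)

/-- the other rules of the product -/
inductive PL : A.Q × Kd G.N E × A.Q → Option E → Prop
  | li {p : A.Q} : PL (p, .idl, p) none
  | ll {o : Option E} {p q : A.Q} : A.tr p o q → PL (p, .lt o, q) o

/-- the product -/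
def prod [Finite E] : BS E where
  N := A.Q × Kd G.N E × A.Q
  finN := by
    have := G.finN
    have := A.finQ
    have := Kd.fin (N := G.N) (E := E)
    infer_instance
  st x := A.I x.1 ∧ A.F x.2.2 ∧ ∃ s, G.st s ∧ x.2.1 = .nt s
  bin := PB G A er
  lf := PL G A

/-- the meaning of the nonterminals -/
def SemK : Kd G.N E → List E → Prop
  | .nt s, w => G.Der s (w.filterMap er)
  | .idl, w => w.filterMap er = []
  | .lt o, w => w = o.toList
  | .lti o, w => w.filterMap er = (o.bind er).toList

variable {G A er}

theorem filterMap_toList (o : Option E) : o.toList.filterMap er = (o.bind er).toList := by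
  cases o with
  | none => rfl
  | some e =>
    show List.filterMap er [e] = (er e).toList
    cases h : er e with
    | none => simp [h]
    | some b => simp [h]

theorem Au.Path.append {p m q : A.Q} {u v : List E} (h1 : A.Path p u m) (h2 : A.Path m v q) :
    A.Path p (u ++ v) q := by
  induction h1 with
  | nil p => exact h2
  | cons h _ ih =>
    rw [List.append_assoc]
    exact .cons h (ih h2)

theorem prod_sound [Finite E] {x : (prod G A er).N} {w : List E} (h : (prod G A er).Der x w) :
    A.Path x.1 w x.2.2 ∧ SemK G er x.2.1 w := by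
  induction h with
  | @leaf s o h =>
    cases h with
    | li => exact ⟨.nil _, rfl⟩
    | ll h =>
      refine ⟨?_, rfl⟩
      have := Au.Path.cons h (.nil _)
      rwa [List.append_nil] at this
  | @node s l r u v h _ _ ih1 ih2 =>
    obtain ⟨h1, h2⟩ := ih1
    obtain ⟨h3, h4⟩ := ih2
    cases h with
    | bb h =>
      refine ⟨h1.append h3, ?_⟩
      show G.Der _ ((u ++ v).filterMap er)
      rw [List.filterMap_append]
      exact .node h h2 h4
    | bl h he =>
      refine ⟨h1.append h3, ?_⟩
      show G.Der _ ((u ++ v).filterMap er)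
      have h2' : u.filterMap er = [] := h2
      have h4' : v.filterMap er = ((some _).bind er).toList := h4
      rw [Option.bind_some, he] at h4'
      rw [List.filterMap_append, h2', h4', List.nil_append]
      exact .leaf h
    | be h =>
      refine ⟨h1.append h3, ?_⟩
      show G.Der _ ((u ++ v).filterMap er)
      have h2' : u.filterMap er = [] := h2
      have h4' : v.filterMap er = [] := h4
      rw [List.filterMap_append, h2', h4', List.nil_append]
      exact BS.Der.leaf (o := none) h
    | bi h =>
      refine ⟨h1.append h3, ?_⟩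
      show (u ++ v).filterMap er = []
      have h2' : u = _ := h2
      have h4' : v.filterMap er = [] := h4
      rw [List.filterMap_append, h4', h2', filterMap_toList, h]
      rfl
    | bt =>
      refine ⟨h1.append h3, ?_⟩
      have h2' : u = _ := h2
      have h4' : v.filterMap er = [] := h4
      show (u ++ v).filterMap er = _
      rw [List.filterMap_append, h4', h2', filterMap_toList, List.append_nil]

theorem prod_idl [Finite E] {p q : A.Q} {w : List E} (h : A.Path p w q)
    (hw : w.filterMap er = []) : (prod G A er).Der (p, .idl, q) w := by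
  induction h with
  | nil p => exact BS.Der.leaf (G := prod G A er) (o := none) PL.li
  | cons h _ ih =>
    rw [List.filterMap_append, filterMap_toList, List.append_eq_nil_iff] at hw
    have h1 : ∀ o : Option B, o.toList = [] → o = none := by
      intro o ho
      cases o with
      | none => rfl
      | some b => exact absurd ho (by simp)
    exact BS.Der.node (G := prod G A er) (PB.bi (h1 _ hw.1))
      (BS.Der.leaf (G := prod G A er) (PL.ll h)) (ih hw.2)

theorem path_head {p q : A.Q} {w : List E} (h : A.Path p w q) {b : B} {u : List B}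
    (hw : w.filterMap er = b :: u) : ∃ w0 e w1 m m', w = w0 ++ (e :: w1) ∧ w0.filterMap er = [] ∧
      er e = some b ∧ A.Path p w0 m ∧ A.tr m (some e) m' ∧ A.Path m' w1 q ∧
      w1.filterMap er = u := by
  induction h with
  | nil p => exact absurd hw (by simp)
  | @cons p m q o w h1 h2 ih =>
    rw [List.filterMap_append, filterMap_toList] at hw
    cases ho : o.bind er with
    | none =>
      rw [ho] at hw
      obtain ⟨w0, e, w1, m1, m', rfl, h3, h4, h5, h6, h7, h8⟩ := ih hw
      refine ⟨o.toList ++ w0, e, w1, m1, m', (List.append_assoc _ _ _).symm, ?_, h4,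
        .cons h1 h5, h6, h7, h8⟩
      rw [List.filterMap_append, filterMap_toList, ho, h3]
      rfl
    | some b' =>
      rw [ho] at hw
      obtain ⟨rfl, rfl⟩ := List.cons.inj hw
      cases o with
      | none => exact absurd ho (by simp)
      | some e => exact ⟨[], e, w, p, m, rfl, rfl, ho, .nil p, h1, h2, rfl⟩

theorem path_split {p q : A.Q} {w : List E} (h : A.Path p w q) {u v : List B}
    (hw : w.filterMap er = u ++ v) : ∃ w1 w2 m, w = w1 ++ w2 ∧ A.Path p w1 m ∧ A.Path m w2 q ∧
      w1.filterMap er = u ∧ w2.filterMap er = v := by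
  induction h generalizing u with
  | nil p =>
    obtain ⟨rfl, rfl⟩ := List.append_eq_nil_iff.1 hw.symm
    exact ⟨[], [], p, rfl, .nil p, .nil p, rfl, rfl⟩
  | @cons p m q o w h1 h2 ih =>
    cases u with
    | nil => exact ⟨[], _, p, rfl, .nil p, .cons h1 h2, rfl, hw⟩
    | cons a u =>
      rw [List.filterMap_append, filterMap_toList] at hw
      cases ho : o.bind er with
      | none =>
        rw [ho] at hw
        obtain ⟨w1, w2, m1, rfl, h3, h4, h5, h6⟩ := ih hw
        refine ⟨o.toList ++ w1, w2, m1, (List.append_assoc _ _ _).symm, .cons h1 h3, h4, ?_, h6⟩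
        rw [List.filterMap_append, filterMap_toList, ho, h5]
        rfl
      | some b =>
        rw [ho] at hw
        have hw' : b :: w.filterMap er = a :: (u ++ v) := hw
        obtain ⟨rfl, hw''⟩ := List.cons.inj hw'
        obtain ⟨w1, w2, m1, rfl, h3, h4, h5, h6⟩ := ih hw''
        refine ⟨o.toList ++ w1, w2, m1, (List.append_assoc _ _ _).symm, .cons h1 h3, h4, ?_, h6⟩
        rw [List.filterMap_append, filterMap_toList, ho, h5]
        rfl

theorem prod_complete [Finite E] {s : G.N} {u : List B} (h : G.Der s u) {p q : A.Q}
    {w : List E} (h1 : A.Path p w q) (hw : w.filterMap er = u) :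
    (prod G A er).Der (p, .nt s, q) w := by
  induction h generalizing p q w with
  | @leaf s o h =>
    cases o with
    | none =>
      have h2 := prod_idl (G := G) h1 hw
      exact BS.Der.node (G := prod G A er) (u := []) (PB.be (m := p) h)
        (BS.Der.leaf (G := prod G A er) (o := none) PL.li) h2
    | some b =>
      obtain ⟨w0, e, w1, m, m', rfl, h3, h4, h5, h6, h7, h8⟩ := path_head h1 hw
      exact BS.Der.node (G := prod G A er) (PB.bl h h4) (prod_idl h5 h3)
        (BS.Der.node (G := prod G A er) (u := [e]) PB.bt
          (BS.Der.leaf (G := prod G A er) (o := some e) (PL.ll h6)) (prod_idl h7 h8))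
  | node h _ _ ih1 ih2 =>
    obtain ⟨w1, w2, m, rfl, h3, h4, h5, h6⟩ := path_split h1 hw
    exact BS.Der.node (G := prod G A er) (PB.bb h) (ih1 h3 h5) (ih2 h4 h6)

theorem prod_lang [Finite E] (w : List E) : w ∈ (prod G A er).lang ↔
    (∃ p q, A.I p ∧ A.F q ∧ A.Path p w q) ∧ w.filterMap er ∈ G.lang := by
  constructor
  · rintro ⟨⟨p, k, q⟩, ⟨h1, h2, s, h3, h4⟩, h5⟩
    obtain ⟨h6, h7⟩ := prod_sound h5
    have h4' : k = .nt s := h4
    subst h4'
    exact ⟨⟨p, q, h1, h2, h6⟩, s, h3, h7⟩
  · rintro ⟨⟨p, q, h1, h2, h3⟩, s, h4, h5⟩
    exact ⟨(p, .nt s, q), ⟨h1, h2, s, h4, rfl⟩, prod_complete h5 h3 rfl⟩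

end

end Pool.Agent.Q166.FS
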