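import Pool.Agent.Q222.FS.PDA
import Pool.Agent.H561R2.CF.Grammar

/-!
# Binary context-free grammars, Greibach normal form, real-time pushdown automata

Part of the characterisation of the families `FSPDA n` (MP_a569f2_lc; theorem of helper230, written by
helper166).
-/

set_option autoImplicit false

namespace Pool.Agent.Q166.FS

open Q222.FS Pool.Agent.H561R2.CF

/-- A context-free grammar with binary rules, rules with one letter and erasing rules. -/
structure BS (T : Type) where
  /-- the nonterminals -/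
  N : Type
  finN : Finite N
  /-- the start symbols -/
  st : N → Prop
  /-- the binary rules -/
  bin : N → N → N → Prop
  /-- the rules with one letter or with the empty word on the right -/
  lf : N → Option T → Prop

namespace BS

variable {T : Type} (G : BS T)

/-- the words generated by a nonterminal -/
inductive Der : G.N → List T → Prop
  | leaf {s : G.N} {o : Option T} : G.lf s o → Der s o.toList
  | node {s l r : G.N} {u v : List T} : G.bin s l r → Der l u → Der r v → Der s (u ++ v)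

/-- the language -/
def lang : Set (List T) := {w | ∃ s, G.st s ∧ G.Der s w}

/-- unit steps (with the help of nullable nonterminals) -/
def Uni (y x : G.N) : Prop :=
  (∃ r, G.bin y x r ∧ G.Der r []) ∨ ∃ l, G.bin y l x ∧ G.Der l []

/-- the binary rules of the normal form -/
def B2 (y l r : G.N) : Prop := ∃ y', Relation.ReflTransGen G.Uni y y' ∧ G.bin y' l r

/-- the letter rules of the normal form -/
def L1 (y : G.N) (a : T) : Prop := ∃ y', Relation.ReflTransGen G.Uni y y' ∧ G.lf y' (some a)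

/-- the words generated in the normal form -/
inductive DC : G.N → List T → Prop
  | leaf {s : G.N} {a : T} : G.L1 s a → DC s [a]
  | node {s l r : G.N} {u v : List T} : G.B2 s l r → DC l u → DC r v → DC s (u ++ v)

variable {G}

theorem DC.uni {y x : G.N} {w : List T} (h : G.Uni y x) (hw : G.DC x w) : G.DC y w := by
  cases hw with
  | leaf h1 =>
    obtain ⟨x', h2, h3⟩ := h1
    exact .leaf ⟨x', h2.head h, h3⟩
  | node h1 h2 h3 =>
    obtain ⟨x', h4, h5⟩ := h1
    exact .node ⟨x', h4.head h, h5⟩ h2 h3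

theorem DC.ne_nil {y : G.N} {w : List T} (h : G.DC y w) : w ≠ [] := by
  induction h with
  | leaf _ => simp
  | node _ _ _ ih _ =>
    intro h0
    exact ih (List.append_eq_nil_iff.1 h0).1

theorem Der.uni {y x : G.N} {w : List T} (h : G.Uni y x) (hw : G.Der x w) : G.Der y w := by
  rcases h with ⟨r, h1, h2⟩ | ⟨l, h1, h2⟩
  · have := Der.node h1 hw h2
    rwa [List.append_nil] at this
  · exact Der.node h1 h2 hw

theorem Der.unis {y x : G.N} {w : List T} (h : Relation.ReflTransGen G.Uni y x)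
    (hw : G.Der x w) : G.Der y w := by
  induction h using Relation.ReflTransGen.head_induction_on with
  | refl => exact hw
  | head h1 _ ih => exact ih.uni h1

theorem DC.der {y : G.N} {w : List T} (h : G.DC y w) : G.Der y w := by
  induction h with
  | leaf h1 =>
    obtain ⟨x', h2, h3⟩ := h1
    exact (Der.leaf h3).unis h2
  | node h1 _ _ ih1 ih2 =>
    obtain ⟨x', h4, h5⟩ := h1
    exact (Der.node h5 ih1 ih2).unis h4

theorem Der.dc {y : G.N} {w : List T} (h : G.Der y w) (hw : w ≠ []) : G.DC y w := by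
  induction h with
  | @leaf s o h1 =>
    cases o with
    | none => exact absurd rfl hw
    | some a => exact .leaf ⟨s, .refl, h1⟩
  | @node s l r u v h1 h2 h3 ih1 ih2 =>
    by_cases hu : u = []
    · subst hu
      exact (ih2 hw).uni (Or.inr ⟨l, h1, h2⟩)
    by_cases hv : v = []
    · subst hv
      rw [List.append_nil]
      exact (ih1 hu).uni (Or.inl ⟨r, h1, h3⟩)
    exact .node ⟨s, .refl, h1⟩ (ih1 hu) (ih2 hv)

theorem dc_iff {y : G.N} {w : List T} : G.DC y w ↔ G.Der y w ∧ w ≠ [] :=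
  ⟨fun h => ⟨h.der, h.ne_nil⟩, fun h => h.1.dc h.2⟩

variable (G) in
/-- `Rst s t v`: `v` is the (nonempty) rest of a word generated by `s` after its left corner `t` -/
inductive Rst : G.N → G.N → List T → Prop
  | one {s t z : G.N} {w : List T} : G.B2 s t z → G.DC z w → Rst s t w
  | more {s t y z : G.N} {w v : List T} : G.B2 y t z → G.DC z w → Rst s y v → Rst s t (w ++ v)

theorem Rst.ext {l x y r : G.N} {u v : List T} (h : G.Rst l x u) (h1 : G.B2 y l r)
    (h2 : G.DC r v) : G.Rst y x (u ++ v) := by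
  induction h with
  | one h3 h4 => exact .more h3 h4 (.one h1 h2)
  | more h3 h4 _ ih =>
    rw [List.append_assoc]
    exact .more h3 h4 ih

theorem Rst.dc {s t : G.N} {u v : List T} (h : G.Rst s t v) (h1 : G.DC t u) :
    G.DC s (u ++ v) := by
  induction h generalizing u with
  | one h3 h4 => exact .node h3 h1 h4
  | more h3 h4 _ ih =>
    rw [← List.append_assoc]
    exact ih (.node h3 h1 h4)

theorem Rst.ne_nil {s t : G.N} {v : List T} (h : G.Rst s t v) : v ≠ [] := by
  cases h with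
  | one _ h => exact h.ne_nil
  | more _ h _ =>
    intro h0
    exact h.ne_nil (List.append_eq_nil_iff.1 h0).1

theorem DC.corner {z : G.N} {b : T} {w : List T} (h : G.DC z (b :: w)) :
    ∃ x, G.L1 x b ∧ ((x = z ∧ w = []) ∨ G.Rst z x w) := by
  generalize hx : b :: w = w' at h
  induction h generalizing w with
  | @leaf s a h1 =>
    obtain ⟨rfl, rfl⟩ := List.cons.inj hx
    exact ⟨s, h1, Or.inl ⟨rfl, rfl⟩⟩
  | @node s l r u v h1 h2 h3 ih1 _ =>
    cases u with
    | nil => exact absurd rfl h2.ne_nil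
    | cons a u =>
      rw [List.cons_append] at hx
      obtain ⟨rfl, rfl⟩ := List.cons.inj hx
      obtain ⟨x, h4, h5⟩ := ih1 rfl
      refine ⟨x, h4, Or.inr ?_⟩
      rcases h5 with ⟨rfl, rfl⟩ | h5
      · exact .one h1 h3
      · exact h5.ext h1 h3

theorem corner_iff {z : G.N} {b : T} {w : List T} : G.DC z (b :: w) ↔
    ∃ x, G.L1 x b ∧ ((x = z ∧ w = []) ∨ G.Rst z x w) := by
  refine ⟨DC.corner, ?_⟩
  rintro ⟨x, h1, ⟨rfl, rfl⟩ | h2⟩
  · exact .leaf h1
  · exact h2.dc (.leaf h1)

/-! ### The real-time pushdown automaton -/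

variable (G) in
/-- the stack symbols -/
abbrev Gm : Type := Option (G.N × G.N)

variable (G) in
/-- the words generated by a stack symbol -/
def Sm : G.Gm → List T → Prop
  | none, w => ∃ s, G.st s ∧ G.DC s w
  | some (s, t), w => G.Rst s t w

variable (G) in
/-- the words generated by a stack -/
def SL : List G.Gm → List T → Prop
  | [], w => w = []
  | X :: σ, w => ∃ u v, w = u ++ v ∧ G.Sm X u ∧ SL σ v

theorem SL_append {σ τ : List G.Gm} {w : List T} :
    G.SL (σ ++ τ) w ↔ ∃ u v, w = u ++ v ∧ G.SL σ u ∧ G.SL τ v := by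
  induction σ generalizing w with
  | nil =>
    constructor
    · intro h
      exact ⟨[], w, rfl, rfl, h⟩
    · rintro ⟨u, v, rfl, h1, h2⟩
      have : u = [] := h1
      subst this
      exact h2
  | cons X σ ih =>
    constructor
    · rintro ⟨u, v, rfl, h1, h2⟩
      obtain ⟨u', v', rfl, h3, h4⟩ := ih.1 h2
      exact ⟨u ++ u', v', (List.append_assoc _ _ _).symm, ⟨u, u', rfl, h1, h3⟩, h4⟩
    · rintro ⟨u, v, rfl, ⟨u1, u2, rfl, h1, h3⟩, h4⟩
      exact ⟨u1, u2 ++ v, List.append_assoc _ _ _, h1, ih.2 ⟨u2, v, rfl, h3, h4⟩⟩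

variable (G) in
/-- the stack symbols for the rest of a word after a left corner -/
def cr (s t : G.N) (π : List G.Gm) : Prop := (t = s ∧ π = []) ∨ π = [some (s, t)]

theorem cr_len {s t : G.N} {π : List G.Gm} (h : G.cr s t π) : π.length ≤ 1 := by
  rcases h with ⟨_, rfl⟩ | rfl <;> simp

theorem SL_single {X : G.Gm} {w : List T} : G.SL [X] w ↔ G.Sm X w := by
  constructor
  · rintro ⟨u, v, rfl, h1, h2⟩
    have : v = [] := h2
    subst this
    rwa [List.append_nil]
  · intro h
    exact ⟨w, [], (List.append_nil w).symm, h, rfl⟩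

variable (G) in
/-- the moves -/
def δ : G.Gm → T → List G.Gm → Prop
  | none, b, π => ∃ s x, G.st s ∧ G.L1 x b ∧ G.cr s x π
  | some (s, t), b, π => ∃ y z x π1 π2, G.B2 y t z ∧ G.L1 x b ∧ G.cr z x π1 ∧ G.cr s y π2 ∧
      π = π1 ++ π2

theorem δ_len {X : G.Gm} {b : T} {π : List G.Gm} (h : G.δ X b π) : π.length ≤ 2 := by
  cases X with
  | none =>
    obtain ⟨s, x, _, _, h⟩ := h
    exact (cr_len h).trans (by norm_num)
  | some p =>
    obtain ⟨s, t⟩ := p
    obtain ⟨y, z, x, π1, π2, _, _, h3, h4, rfl⟩ := h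
    rw [List.length_append]
    have := cr_len h3
    have := cr_len h4
    omega

theorem corner_iff' {z : G.N} {b : T} {w : List T} : G.DC z (b :: w) ↔
    ∃ x π, G.L1 x b ∧ G.cr z x π ∧ G.SL π w := by
  rw [corner_iff]
  constructor
  · rintro ⟨x, h1, ⟨rfl, rfl⟩ | h2⟩
    · exact ⟨x, [], h1, Or.inl ⟨rfl, rfl⟩, rfl⟩
    · exact ⟨x, _, h1, Or.inr rfl, SL_single.2 h2⟩
  · rintro ⟨x, π, h1, ⟨rfl, rfl⟩ | rfl, h3⟩
    · exact ⟨x, h1, Or.inl ⟨rfl, h3⟩⟩
    · exact ⟨x, h1, Or.inr (SL_single.1 h3)⟩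

theorem Sm_iff {X : G.Gm} {b : T} {w : List T} : G.Sm X (b :: w) ↔ ∃ π, G.δ X b π ∧ G.SL π w := by
  cases X with
  | none =>
    constructor
    · rintro ⟨s, h1, h2⟩
      obtain ⟨x, π, h3, h4, h5⟩ := corner_iff'.1 h2
      exact ⟨π, ⟨s, x, h1, h3, h4⟩, h5⟩
    · rintro ⟨π, ⟨s, x, h1, h3, h4⟩, h5⟩
      exact ⟨s, h1, corner_iff'.2 ⟨x, π, h3, h4, h5⟩⟩
  | some p =>
    obtain ⟨s, t⟩ := p
    constructor
    · intro h
      have h' : G.Rst s t (b :: w) := h
      generalize hx : b :: w = w' at h'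
      cases h' with
      | @one _ z _ h1 h2 =>
        subst hx
        obtain ⟨x, π, h3, h4, h5⟩ := corner_iff'.1 h2
        exact ⟨π, ⟨s, z, x, π, [], h1, h3, h4, Or.inl ⟨rfl, rfl⟩, (List.append_nil π).symm⟩, h5⟩
      | @more _ y z u v h1 h2 h6 =>
        cases u with
        | nil => exact absurd rfl h2.ne_nil
        | cons a u =>
          rw [List.cons_append] at hx
          obtain ⟨rfl, rfl⟩ := List.cons.inj hx
          obtain ⟨x, π, h3, h4, h5⟩ := corner_iff'.1 h2
          exact ⟨π ++ [some (s, y)], ⟨y, z, x, π, _, h1, h3, h4, Or.inr rfl, rfl⟩,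
            SL_append.2 ⟨u, v, rfl, h5, SL_single.2 h6⟩⟩
    · rintro ⟨π, ⟨y, z, x, π1, π2, h1, h3, h4, h5, rfl⟩, h6⟩
      obtain ⟨u, v, rfl, h7, h8⟩ := SL_append.1 h6
      have h9 : G.DC z (b :: u) := corner_iff'.2 ⟨x, π1, h3, h4, h7⟩
      rcases h5 with ⟨rfl, rfl⟩ | rfl
      · have : v = [] := h8
        subst this
        rw [List.append_nil]
        exact .one h1 h9
      · exact Rst.more h1 h9 (SL_single.1 h8)

theorem Sm_ne_nil {X : G.Gm} {w : List T} (h : G.Sm X w) : w ≠ [] := by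
  cases X with
  | none =>
    obtain ⟨s, _, h⟩ := h
    exact h.ne_nil
  | some p => exact Rst.ne_nil h

theorem SL_cons_iff {X : G.Gm} {σ : List G.Gm} {b : T} {w : List T} :
    G.SL (X :: σ) (b :: w) ↔ ∃ π, G.δ X b π ∧ G.SL (π ++ σ) w := by
  constructor
  · rintro ⟨u, v, h, h1, h2⟩
    cases u with
    | nil => exact absurd rfl (Sm_ne_nil h1)
    | cons a u =>
      rw [List.cons_append] at h
      obtain ⟨rfl, rfl⟩ := List.cons.inj h
      obtain ⟨π, h3, h4⟩ := Sm_iff.1 h1
      exact ⟨π, h3, SL_append.2 ⟨u, v, rfl, h4, h2⟩⟩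
  · rintro ⟨π, h3, h4⟩
    obtain ⟨u, v, rfl, h5, h6⟩ := SL_append.1 h4
    exact ⟨b :: u, v, rfl, Sm_iff.2 ⟨π, h3, h5⟩, h6⟩

end BS

/-! ### The annotated pushdown automaton -/

section

variable {T Λ : Type} (G : BS T) [Finite T] {n : ℕ} (g : T → Fin (n + 1)) (h : T → List Λ)

/-- the annotated pushdown automaton of a grammar -/
def toLP : LP Λ n where
  Q := Unit
  Γ := G.Gm
  ι := {x : G.Gm × T × List G.Gm // G.δ x.1 x.2.1 x.2.2}
  finQ := inferInstance
  finΓ := by
    have := G.finN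
    infer_instance
  finι := by
    have := G.finN
    have hf : Finite {l : List G.Gm // l.length ≤ 2} := (List.finite_length_le G.Gm 2).to_subtype
    refine Finite.of_injective
      (β := G.Gm × T × {l : List G.Gm // l.length ≤ 2})
      (fun x => (x.1.1, x.1.2.1, ⟨x.1.2.2, BS.δ_len x.2⟩)) ?_
    rintro ⟨⟨a, b, c⟩, hx⟩ ⟨⟨a', b', c'⟩, hy⟩ he
    simp only [Prod.mk.injEq, Subtype.mk.injEq] at he
    obtain ⟨rfl, rfl, rfl⟩ := he
    rfl
  rule x := ⟨x.1.1, (), h x.1.2.1, x.1.2.2, ()⟩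
  ann x := g x.1.2.1
  q0 := ()
  Z0 := none
  F := Set.univ

variable {G g h}

theorem toLP_sound {μ : List (toLP G g h).ι} {σ : List G.Gm}
    (hc : Comp (μ.map (toLP G g h).rule) σ () [] ()) : G.SL σ (μ.map fun x => x.1.2.1) := by
  induction μ generalizing σ with
  | nil =>
    obtain ⟨rfl, _⟩ := hc
    exact rfl
  | cons x μ ih =>
    obtain ⟨β, rfl, _, hc⟩ := hc
    rw [List.map_cons]
    exact BS.SL_cons_iff.2 ⟨x.1.2.2, x.2, ih hc⟩

theorem toLP_complete {w : List T} {σ : List G.Gm} (hc : G.SL σ w) :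
    ∃ μ : List (toLP G g h).ι, (μ.map fun x => x.1.2.1) = w ∧
      Comp (μ.map (toLP G g h).rule) σ () [] () := by
  induction w generalizing σ with
  | nil =>
    cases σ with
    | nil => exact ⟨[], rfl, rfl, rfl⟩
    | cons X σ =>
      obtain ⟨u, v, h1, h2, _⟩ := hc
      have := (List.append_eq_nil_iff.1 h1.symm).1
      exact absurd this (BS.Sm_ne_nil h2)
  | cons b w ih =>
    cases σ with
    | nil => exact absurd hc (by simp [BS.SL])
    | cons X σ =>
      obtain ⟨π, h1, h2⟩ := BS.SL_cons_iff.1 hc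
      obtain ⟨μ, h3, h4⟩ := ih h2
      exact ⟨⟨(X, b, π), h1⟩ :: μ, congrArg (List.cons b) h3, σ, rfl, rfl, h4⟩

theorem toLP_lang : (toLP G g h).Lang =
    {v | ∃ w ∈ G.lang, w ≠ [] ∧ (∃ k, w.map g = pattern n k) ∧ w.flatMap h = v} := by
  have hann : ∀ μ : List (toLP G g h).ι,
      μ.map (toLP G g h).ann = (μ.map fun x => x.1.2.1).map g := by
    intro μ
    rw [List.map_map]
    rfl
  have hinp : ∀ μ : List (toLP G g h).ι,
      input (μ.map (toLP G g h).rule) = (μ.map fun x => x.1.2.1).flatMap h := by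
    intro μ
    unfold input
    rw [List.flatMap_map, List.flatMap_map]
    rfl
  ext v
  constructor
  · rintro ⟨μ, k, ⟨f, _, h1⟩, h2, h3⟩
    have h4 := BS.SL_single.1 (toLP_sound h1)
    obtain ⟨s, h5, h6⟩ := h4
    refine ⟨_, ⟨s, h5, h6.der⟩, h6.ne_nil, ⟨k, ?_⟩, ?_⟩
    · rw [← hann]
      exact h2
    · rw [← hinp]
      exact h3
  · rintro ⟨w, ⟨s, h1, h2⟩, h3, ⟨k, h4⟩, rfl⟩
    have h5 : G.SL [none] w := BS.SL_single.2 ⟨s, h1, h2.dc h3⟩
    obtain ⟨μ, rfl, h7⟩ := toLP_complete (g := g) (h := h) h5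
    refine ⟨μ, k, ⟨(), trivial, h7⟩, ?_, ?_⟩
    · rw [hann]
      exact h4
    · rw [hinp]

end

end Pool.Agent.Q166.FS
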