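import Pool.Agent.Q166.FS.BS

/-!
# From context-free grammars to binary grammars; the accepting computations are context-free

Part of the characterisation of the families `FSPDA n` (MP_a569f2_lc; theorem of helper230, written by
helper166).
-/

set_option autoImplicit false

namespace Pool.Agent.Q166.FS

open Q222.FS Pool.Agent.H561R2.CF

/-! ### From a context-free grammar to a binary grammar -/

section

variable {T : Type} (g : ContextFreeGrammar T)

/-- the items: suffixes of right-hand sides and single symbols -/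
def items : Set (List (Symbol T g.NT)) :=
  ((⋃ r ∈ (g.rules : Set (ContextFreeRule T g.NT)), {s | s <:+ r.output}) ∪
    {s | s <:+ [.nonterminal g.initial]}) ∪
    ⋃ r ∈ (g.rules : Set (ContextFreeRule T g.NT)), {s | ∃ x ∈ r.output, s = [x]}

theorem suffixes_finite {α : Type} (l : List α) : {γ | γ <:+ l}.Finite := by
  have : {γ | γ <:+ l} = {γ | γ ∈ l.tails} := by
    ext γ
    simp
  rw [this]
  exact List.finite_toSet _

theorem items_finite : (items g).Finite := by
  refine ((Set.Finite.biUnion g.rules.finite_toSet fun r _ => suffixes_finite _).union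
    (suffixes_finite _)).union (Set.Finite.biUnion g.rules.finite_toSet fun r _ => ?_)
  refine ((List.finite_toSet r.output).image fun x => [x]).subset ?_
  rintro s ⟨x, hx, rfl⟩
  exact ⟨x, hx, rfl⟩

theorem nil_items : [] ∈ items g := Or.inl (Or.inr (List.nil_suffix))

variable {g}

theorem items_output {r : ContextFreeRule T g.NT} (hr : r ∈ g.rules) : r.output ∈ items g :=
  Or.inl (Or.inl (Set.mem_biUnion (Finset.mem_coe.2 hr) List.suffix_rfl))

theorem items_tail {x : Symbol T g.NT} {s : List (Symbol T g.NT)} (h : x :: s ∈ items g) :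
    s ∈ items g := by
  rcases h with (h | h) | h
  · obtain ⟨r, hr, h⟩ := Set.mem_iUnion₂.1 h
    exact Or.inl (Or.inl (Set.mem_biUnion hr ((List.suffix_cons x s).trans h)))
  · exact Or.inl (Or.inr ((List.suffix_cons x s).trans h))
  · obtain ⟨r, hr, y, hy, h⟩ := Set.mem_iUnion₂.1 h
    obtain ⟨rfl, rfl⟩ := List.cons.inj h
    exact nil_items g

theorem items_head {x : Symbol T g.NT} {s : List (Symbol T g.NT)} (h : x :: s ∈ items g) :
    [x] ∈ items g := by
  rcases h with (h | h) | h
  · obtain ⟨r, hr, h⟩ := Set.mem_iUnion₂.1 h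
    exact Or.inr (Set.mem_biUnion hr ⟨x, h.subset List.mem_cons_self, rfl⟩)
  · have h1 := h.subset (List.mem_cons_self (a := x) (l := s))
    rw [List.mem_singleton] at h1
    rw [h1]
    exact Or.inl (Or.inr List.suffix_rfl)
  · obtain ⟨r, hr, y, hy, h⟩ := Set.mem_iUnion₂.1 h
    obtain ⟨rfl, rfl⟩ := List.cons.inj h
    exact Or.inr (Set.mem_biUnion hr ⟨x, hy, rfl⟩)

variable (g)

/-- the binary grammar of a context-free grammar -/
def toBS : BS T where
  N := items g
  finN := (items_finite g).to_subtype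
  st s := s.1 = [.nonterminal g.initial]
  bin s l r := (∃ X, s.1 = .nonterminal X :: r.1 ∧
      (⟨X, l.1⟩ : ContextFreeRule T g.NT) ∈ g.rules) ∨
    ∃ a, s.1 = .terminal a :: r.1 ∧ l.1 = [.terminal a]
  lf s o := (∃ a, s.1 = [.terminal a] ∧ o = some a) ∨ (s.1 = [] ∧ o = none)

variable {g}

theorem yd_nil {R : Finset (ContextFreeRule T g.NT)} {w : List T} (h : Yd R [] w) : w = [] := by
  cases h
  rfl

theorem yd_term {R : Finset (ContextFreeRule T g.NT)} {a : T} {w : List T}
    (h : Yd R [.terminal a] w) : w = [a] := by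
  cases h with
  | term h => rw [yd_nil h]

theorem der_yd {s : (toBS g).N} {w : List T} (h : (toBS g).Der s w) : Yd g.rules s.1 w := by
  induction h with
  | leaf h =>
    rcases h with ⟨a, h, rfl⟩ | ⟨h, rfl⟩
    · rw [h]
      exact .term .nil
    · rw [h]
      exact .nil
  | node h _ _ ih1 ih2 =>
    rcases h with ⟨X, h, hr⟩ | ⟨a, h, hl⟩
    · rw [h]
      exact Yd.nt hr ih1 ih2
    · rw [hl] at ih1
      rw [yd_term ih1, h]
      exact .term ih2

theorem yd_der {s : List (Symbol T g.NT)} {w : List T} (h : Yd g.rules s w)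
    (hs : s ∈ items g) : (toBS g).Der ⟨s, hs⟩ w := by
  induction h with
  | nil => exact BS.Der.leaf (G := toBS g) (s := ⟨[], hs⟩) (o := none) (Or.inr ⟨rfl, rfl⟩)
  | @term a s w _ ih =>
    have h1 : (toBS g).Der ⟨[.terminal a], items_head hs⟩ [a] :=
      BS.Der.leaf (G := toBS g) (o := some a) (Or.inl ⟨a, rfl, rfl⟩)
    exact BS.Der.node (G := toBS g) (s := ⟨_, hs⟩) (Or.inr ⟨a, rfl, rfl⟩) h1
      (ih (items_tail hs))
  | nt hr _ _ ih1 ih2 =>
    exact BS.Der.node (G := toBS g) (s := ⟨_, hs⟩) (Or.inl ⟨_, rfl, hr⟩)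
      (ih1 (items_output hr)) (ih2 (items_tail hs))

theorem toBS_lang (w : List T) : w ∈ (toBS g).lang ↔ w ∈ g.language := by
  rw [ContextFreeGrammar.mem_language_iff, yd_iff]
  constructor
  · rintro ⟨s, h1, h2⟩
    have h3 := der_yd h2
    have h1' : s.1 = [.nonterminal g.initial] := h1
    rw [h1'] at h3
    exact h3
  · intro h
    exact ⟨⟨_, Or.inl (Or.inr List.suffix_rfl)⟩, rfl, yd_der h _⟩

end

/-! ### The accepting computations form a context-free language -/

section

variable {Λ : Type} {n : ℕ} (P : LP Λ n)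

/-- the nonterminals -/
abbrev NTm : Type := Option (List P.Γ × P.Q × P.Q)

/-- the rules -/
def ruleSet : Set (ContextFreeRule P.ι (NTm P)) :=
  ({r | ∃ f ∈ P.F, r = ⟨none, [.nonterminal (some ([P.Z0], P.q0, f))]⟩} ∪
    {r | ∃ q : P.Q, r = ⟨some ([], q, q), []⟩}) ∪
    {r | ∃ (i : P.ι) (β : suf P.rule P.Z0) (p q' : P.Q),
      r = ⟨some ((P.rule i).top :: β.1, (P.rule i).src, q'), [.terminal i,
        .nonterminal (some ((P.rule i).push, (P.rule i).tgt, p)),
        .nonterminal (some (β.1, p, q'))]⟩}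

theorem ruleSet_finite : (ruleSet P).Finite := by
  have h1 := P.finQ
  have h2 := P.finι
  have h3 := (suf_finite P.rule P.Z0).to_subtype
  refine Set.Finite.union (Set.Finite.union ?_ ?_) ?_
  · refine (Set.finite_range fun f : P.Q =>
      (⟨none, [.nonterminal (some ([P.Z0], P.q0, f))]⟩ : ContextFreeRule P.ι (NTm P))).subset ?_
    rintro r ⟨f, _, rfl⟩
    exact ⟨f, rfl⟩
  · refine (Set.finite_range fun q : P.Q =>
      (⟨some ([], q, q), []⟩ : ContextFreeRule P.ι (NTm P))).subset ?_
    rintro r ⟨f, rfl⟩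
    exact ⟨f, rfl⟩
  · refine (Set.finite_range fun x : P.ι × suf P.rule P.Z0 × P.Q × P.Q =>
      (⟨some ((P.rule x.1).top :: x.2.1.1, (P.rule x.1).src, x.2.2.2), [.terminal x.1,
        .nonterminal (some ((P.rule x.1).push, (P.rule x.1).tgt, x.2.2.1)),
        .nonterminal (some (x.2.1.1, x.2.2.1, x.2.2.2))]⟩ :
          ContextFreeRule P.ι (NTm P))).subset ?_
    rintro r ⟨i, β, p, q', rfl⟩
    exact ⟨(i, β, p, q'), rfl⟩

/-- the grammar of the accepting computations -/
noncomputable def accGram : ContextFreeGrammar P.ι where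
  NT := NTm P
  initial := none
  rules := (ruleSet_finite P).toFinset

/-- the meaning of the nonterminals -/
def Sem : NTm P → List P.ι → Prop
  | none, w => P.Acc w
  | some (α, q, q'), w => Comp (w.map P.rule) α q [] q'

/-- the meaning of the sentential forms -/
def SemL : List (Symbol P.ι (NTm P)) → List P.ι → Prop
  | [], w => w = []
  | .terminal a :: s, w => ∃ w', w = a :: w' ∧ SemL s w'
  | .nonterminal X :: s, w => ∃ u v, w = u ++ v ∧ Sem P X u ∧ SemL s v

variable {P}

theorem rule_sound' {r : ContextFreeRule P.ι (NTm P)} (hr : r ∈ ruleSet P) {u : List P.ι}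
    (h : SemL P r.output u) : Sem P r.input u := by
  rcases hr with (⟨f, hf, rfl⟩ | ⟨q, rfl⟩) | ⟨i, β, p, q', rfl⟩
  · obtain ⟨u1, v, rfl, h1, h2⟩ := h
    have h2' : v = [] := h2
    subst h2'
    rw [List.append_nil]
    exact ⟨f, hf, h1⟩
  · have h' : u = [] := h
    subst h'
    exact ⟨rfl, rfl⟩
  · obtain ⟨u', rfl, u1, v, rfl, h1, u2, v', rfl, h2, h3⟩ := h
    have h3' : v' = [] := h3
    subst h3'
    rw [List.append_nil]
    refine ⟨β.1, rfl, rfl, ?_⟩
    rw [List.map_append, comp_append]
    exact ⟨β.1, p, comp_frame h1 _, h2⟩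

theorem yd_sem {s : List (Symbol P.ι (NTm P))} {w : List P.ι} (h : Yd (accGram P).rules s w) :
    SemL P s w := by
  induction h with
  | nil => exact rfl
  | term _ ih => exact ⟨_, rfl, ih⟩
  | nt hr _ _ ih1 ih2 =>
    exact ⟨_, _, rfl, rule_sound' ((ruleSet_finite P).mem_toFinset.1 hr) ih1, ih2⟩

theorem comp_yd (μ : List P.ι) (α : List P.Γ) (hα : α ∈ suf P.rule P.Z0) (q q' : P.Q)
    (h : Comp (μ.map P.rule) α q [] q') :
    Yd (accGram P).rules [.nonterminal (some (α, q, q'))] μ := by
  induction hn : μ.length using Nat.strong_induction_on generalizing μ α q q' with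
  | _ n ih =>
    cases μ with
    | nil =>
      obtain ⟨rfl, rfl⟩ := h
      have hr : (⟨some ([], q, q), []⟩ : ContextFreeRule P.ι (NTm P)) ∈ (accGram P).rules :=
        (ruleSet_finite P).mem_toFinset.2 (Or.inl (Or.inr ⟨q, rfl⟩))
      exact Yd.nt hr .nil .nil
    | cons i μ =>
      obtain ⟨β, rfl, rfl, h⟩ := h
      obtain ⟨ν1, ν2, p, h1, h2, h3⟩ := comp_split h
      obtain ⟨μ1, μ2, rfl, rfl, rfl⟩ := List.map_eq_append_iff.1 h1
      have hβ : β ∈ suf P.rule P.Z0 := by
        rcases hα with hα | hα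
        · obtain ⟨j, hj⟩ := Set.mem_iUnion.1 hα
          exact Or.inl (Set.mem_iUnion.2 ⟨j, (List.suffix_cons _ _).trans hj⟩)
        · exact Or.inr ((List.suffix_cons _ _).trans hα)
      simp only [List.length_cons, List.length_append] at hn
      have a1 := ih μ1.length (by omega) μ1 (P.rule i).push
        (Or.inl (Set.mem_iUnion.2 ⟨i, List.suffix_rfl⟩)) _ _ h2 rfl
      have a2 := ih μ2.length (by omega) μ2 β hβ _ _ h3 rfl
      have hr : (⟨some ((P.rule i).top :: β, (P.rule i).src, q'), [.terminal i,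
          .nonterminal (some ((P.rule i).push, (P.rule i).tgt, p)),
          .nonterminal (some (β, p, q'))]⟩ : ContextFreeRule P.ι (NTm P)) ∈ (accGram P).rules :=
        (ruleSet_finite P).mem_toFinset.2 (Or.inr ⟨i, ⟨β, hβ⟩, p, q', rfl⟩)
      have a3 := Yd.nt hr (.term (a1.append a2)) .nil
      rw [List.append_nil] at a3
      exact a3

theorem acc_cf : Language.IsContextFree ({μ | P.Acc μ} : Language P.ι) := by
  refine ⟨accGram P, ?_⟩
  ext w
  rw [ContextFreeGrammar.mem_language_iff, yd_iff]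
  constructor
  · intro h
    obtain ⟨u, v, rfl, h1, h2⟩ := yd_sem h
    have h2' : v = [] := h2
    subst h2'
    rw [List.append_nil]
    exact h1
  · rintro ⟨f, hf, h⟩
    have h1 := comp_yd w [P.Z0] (Or.inr List.suffix_rfl) _ _ h
    have hr : (⟨none, [.nonterminal (some ([P.Z0], P.q0, f))]⟩ :
        ContextFreeRule P.ι (NTm P)) ∈ (accGram P).rules :=
      (ruleSet_finite P).mem_toFinset.2 (Or.inl (Or.inl ⟨f, hf, rfl⟩))
    have h2 := Yd.nt hr h1 .nil
    rw [List.append_nil] at h2
    exact h2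

end

end Pool.Agent.Q166.FS
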