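import Pool.Agent.Q166.FS.PRL
import Pool.Agent.Results.MP_e3bf5d_lc.Hierarchy

/-!
# The characterisation of the families `FSPDA n`

(MP_a569f2_lc; theorem of helper230, written by helper166.)
-/

set_option autoImplicit false

namespace Pool.Agent.Q166.FS

open Q222.FS
open Pool.Agent.Results.MP_e3bf5d_lc.Hierarchy (FSPDA_iff)

variable {Λ : Type} {n : ℕ}

/-! ### From automata to context-free languages with block numbers -/

theorem lp_form (P : LP Λ n) : P.Lang =
    {w | ∃ u ∈ ({μ | P.Acc μ} : Language P.ι), (∃ k, u.map P.ann = pattern n k) ∧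
      u.flatMap (fun i => (P.rule i).inp) = w} := by
  have hinp : ∀ μ : List P.ι, input (μ.map P.rule) = μ.flatMap (fun i => (P.rule i).inp) := by
    intro μ
    unfold input
    rw [List.flatMap_map]
  ext w
  constructor
  · rintro ⟨μ, k, h1, h2, h3⟩
    exact ⟨μ, h1, ⟨k, h2⟩, by rw [← hinp]; exact h3⟩
  · rintro ⟨μ, h1, ⟨k, h2⟩, h3⟩
    exact ⟨μ, k, h1, h2, by rw [hinp]; exact h3⟩

/-! ### The words with block numbers are a parallel right-linear language -/

/-- the grammar of the words with block numbers `0^k ... n^k` -/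
def patG {B : Type} (hB : Finite B) (g : B → Fin (n + 1)) : PRLG B (n + 1) where
  N := Unit
  finN := inferInstance
  start := Set.univ
  rules j := {ρ | (∃ b, g b = j ∧ ρ = ((), [b], some ())) ∨ ρ = ((), [], none)}
  finR j := by
    refine ((Set.finite_range fun b : B => ((), [b], some ())).union
      (Set.finite_singleton ((), [], none))).subset ?_
    rintro ρ (⟨b, _, rfl⟩ | rfl)
    · exact Or.inl ⟨b, rfl⟩
    · exact Or.inr rfl

theorem dk_pat {B : Type} {hB : Finite B} {g : B → Fin (n + 1)} {j : Fin (n + 1)} (k : ℕ)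
    {w : List B} : Dk ((patG hB g).rules j) (k + 1) (some ()) w ↔
      w.map g = List.replicate k j := by
  induction k generalizing w with
  | zero =>
    constructor
    · rintro ⟨X, x, o', w', h1, h2, rfl, rfl, rfl⟩
      rcases h2 with ⟨b, _, h2⟩ | h2
      · have h3 := (Prod.mk.inj (Prod.mk.inj h2).2).2
        cases h3
      · have h3 := (Prod.mk.inj (Prod.mk.inj h2).2).1
        rw [h3]
        rfl
    · intro h
      rw [List.replicate_zero, List.map_eq_nil_iff] at h
      subst h
      exact ⟨(), [], none, [], rfl, Or.inr rfl, rfl, rfl, rfl⟩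
  | succ k ih =>
    constructor
    · rintro ⟨X, x, o', w', h1, h2, rfl, h3⟩
      rcases h2 with ⟨b, hb, h2⟩ | h2
      · obtain ⟨h4, h5⟩ := Prod.mk.inj (Prod.mk.inj h2).2
        subst h4
        subst h5
        rw [List.map_append, ih.1 h3]
        show g b :: List.replicate k j = _
        rw [hb, List.replicate_succ]
      · obtain ⟨h4, h5⟩ := Prod.mk.inj (Prod.mk.inj h2).2
        subst h4
        subst h5
        obtain ⟨_, _, _, _, h6, _⟩ := h3
        cases h6
    · intro h
      cases w with
      | nil => exact absurd h (by simp)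
      | cons b w =>
        rw [List.map_cons, List.replicate_succ] at h
        obtain ⟨h1, h2⟩ := List.cons.inj h
        exact ⟨(), [b], some (), w, rfl, Or.inl ⟨b, h1, rfl⟩, rfl, ih.2 h2⟩

theorem cat_pat {B J : Type} {g : B → J} {k : ℕ} {js : List J} {u : List B} :
    Cat (fun j x => x.map g = List.replicate k j) js u ↔
      u.map g = js.flatMap fun j => List.replicate k j := by
  induction js generalizing u with
  | nil =>
    constructor
    · intro h
      have h' : u = [] := h
      subst h'
      rfl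
    · intro h
      rw [List.flatMap_nil, List.map_eq_nil_iff] at h
      exact h
  | cons j js ih =>
    rw [List.flatMap_cons]
    constructor
    · rintro ⟨x, v, h1, rfl, h2⟩
      rw [List.map_append, h1, ih.1 h2]
    · intro h
      obtain ⟨x, v, rfl, h1, h2⟩ := List.map_eq_append_iff.1 h
      exact ⟨x, v, h1, rfl, ih.2 h2⟩

theorem patG_lang {B : Type} {hB : Finite B} {g : B → Fin (n + 1)} {u : List B} :
    u ∈ (patG hB g).lang ↔ ∃ k, u.map g = pattern n k := by
  rw [mem_lang_iff]
  constructor
  · rintro ⟨S, _, k, f, h1, rfl⟩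
    cases k with
    | zero =>
      have h2 : some (S 0) = none := (h1 0).1
      exact absurd h2 (by simp)
    | succ k =>
      refine ⟨k, ?_⟩
      unfold pattern
      rw [List.map_flatMap]
      congr 1
      funext j
      exact (dk_pat k).1 (h1 j)
  · rintro ⟨k, h⟩
    obtain ⟨f, h1, rfl⟩ := (cat_iff (List.nodup_finRange (n + 1))).1 (cat_pat.2 h)
    exact ⟨fun _ => (), trivial, k + 1, f, fun j => (dk_pat k).2 (h1 j (List.mem_finRange j)), rfl⟩

/-! ### From intersections to automata -/

/-- the homomorphism for padded words -/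
def ph {B : Type} (h : B → List Λ) (e : Option B × Fin (n + 1)) : List Λ :=
  match e.1 with
  | none => []
  | some b => h b

theorem ph_flatMap {B : Type} (h : B → List Λ) (w : List (Option B × Fin (n + 1))) :
    w.flatMap (ph h) = (w.filterMap Prod.fst).flatMap h := by
  induction w with
  | nil => rfl
  | cons e w ih =>
    obtain ⟨o, j⟩ := e
    rw [List.flatMap_cons, ih]
    cases o with
    | none => rfl
    | some b => rfl

theorem erase_cat {B : Type} (js : List (Fin (n + 1))) (e : Fin (n + 1) → List (Option B)) :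
    (js.flatMap fun j => (e j).map fun a => (a, j)).filterMap Prod.fst =
      js.flatMap fun j => (e j).filterMap id := by
  induction js with
  | nil => rfl
  | cons j js ih =>
    rw [List.flatMap_cons, List.flatMap_cons, List.filterMap_append, ih, List.filterMap_map]
    rfl

theorem ann_cat {B : Type} (js : List (Fin (n + 1))) (e : Fin (n + 1) → List (Option B)) :
    (js.flatMap fun j => (e j).map fun a => (a, j)).map Prod.snd =
      js.flatMap fun j => List.replicate (e j).length j := by
  rw [List.map_flatMap]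
  congr 1
  funext j
  rw [List.map_map]
  exact List.map_const'

theorem count_cat {J : Type} [DecidableEq J] (js : List J) (f : J → ℕ) (j : J) :
    (js.flatMap fun i => List.replicate (f i) i).count j = f j * js.count j := by
  induction js with
  | nil => simp
  | cons a l ih =>
    rw [List.flatMap_cons, List.count_append, ih, List.count_replicate, List.count_cons]
    by_cases h : a = j
    · subst h
      simp [mul_add, add_comm]
    · simp [h]

theorem main_dir {B : Type} (hB : Finite B) (C : Language B) (G : PRLG B (n + 1))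
    (h : B → List Λ) (hC : C.IsContextFree) :
    {w | ∃ u ∈ C, u ∈ G.lang ∧ u.flatMap h = w} ∈ FSPDA n Λ := by
  obtain ⟨g, rfl⟩ := hC
  obtain ⟨c, hc⟩ := dk_bd G.finR
  have hE : Finite (Option B × Fin (n + 1)) := inferInstance
  have hR : ∀ j, ∀ ρ ∈ padR c (G.rules j), ρ.2.1.length ≤ c + 1 := by
    rintro j ρ ⟨x, h1, h2⟩
    rw [h2, pad_length (hc j _ h1)]
  rw [FSPDA_iff]
  refine ⟨toLP (prod (toBS g) (au (fun j => padR c (G.rules j)) G.start G.finN
    (inferInstance : Finite (Option B)) (c + 1)) Prod.fst) Prod.snd (ph h), ?_⟩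
  rw [toLP_lang]
  have hau := fun w : List (Option B × Fin (n + 1)) => au_lang (start := G.start)
    (hN := G.finN) (hA := (inferInstance : Finite (Option B))) hR (Nat.succ_pos n) (w := w)
  ext v
  constructor
  · rintro ⟨w, h1, h2, ⟨M, h3⟩, rfl⟩
    rw [prod_lang, hau] at h1
    obtain ⟨⟨S, hS, k, e, h4, rfl⟩, h5⟩ := h1
    have h6 : ∀ j, Dk (G.rules j) (k j) (some (S j)) ((e j).filterMap id) ∧
        (e j).length = (c + 1) * k j := fun j => pad_dk (hc j) (h4 j)
    have h7 : ∀ j, (e j).length = M := by
      intro j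
      have h8 := congrArg (List.count j) h3
      rw [ann_cat, count_cat, List.count_finRange, mul_one, pattern_count] at h8
      exact h8
    have h8 : ∀ j, k j = k 0 := by
      intro j
      have h9 := (h6 j).2
      have h10 := (h6 0).2
      rw [h7] at h9 h10
      exact Nat.eq_of_mul_eq_mul_left (Nat.succ_pos c) (h9.symm.trans h10)
    refine ⟨_, (toBS_lang _).1 h5, ?_, (ph_flatMap _ _).symm⟩
    rw [mem_lang_iff]
    refine ⟨S, hS, k 0, fun j => (e j).filterMap id, fun j => ?_, erase_cat _ _⟩
    rw [← h8 j]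
    exact (h6 j).1
  · rintro ⟨u, h1, h2, rfl⟩
    rw [mem_lang_iff] at h2
    obtain ⟨S, hS, k, f, h3, rfl⟩ := h2
    choose e h4 h5 using fun j => dk_pad (c := c) (h3 j)
    have h6 : ∀ j, (e j).length = (c + 1) * k := fun j => (pad_dk (hc j) (h4 j)).2
    have hk : 1 ≤ k := by
      rcases Nat.eq_zero_or_pos k with h7 | h7
      · rw [h7] at h3
        have h8 : some (S 0) = none := (h3 0).1
        exact absurd h8 (by simp)
      · exact h7
    have h7 : ((List.finRange (n + 1)).flatMap fun j => (e j).map fun a => (a, j)).filterMap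
        Prod.fst = (List.finRange (n + 1)).flatMap f := by
      rw [erase_cat]
      congr 1
      funext j
      exact h5 j
    refine ⟨(List.finRange (n + 1)).flatMap fun j => (e j).map fun a => (a, j), ?_, ?_,
      ⟨(c + 1) * k, ?_⟩, ?_⟩
    · rw [prod_lang, hau, h7]
      exact ⟨⟨S, hS, fun _ => k, e, h4, rfl⟩, (toBS_lang _).2 h1⟩
    · intro h8
      have h9 := congrArg (fun l => List.count (0 : Fin (n + 1)) (List.map Prod.snd l)) h8
      simp only [List.map_nil, List.count_nil] at h9
      rw [ann_cat, count_cat, List.count_finRange, mul_one, h6] at h9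
      have : 0 < (c + 1) * k := Nat.mul_pos (Nat.succ_pos c) hk
      omega
    · rw [ann_cat]
      unfold pattern
      congr 1
      funext j
      rw [h6]
    · rw [ph_flatMap, h7]

/-- The characterisation. -/
theorem char (n : ℕ) (Λ : Type) (L : Set (List Λ)) :
    (L ∈ FSPDA n Λ ↔ ∃ (B : Type) (_ : Finite B) (C : Language B) (G : PRLG B (n + 1))
      (h : B → List Λ), C.IsContextFree ∧ L = {w | ∃ u ∈ C, u ∈ G.lang ∧ u.flatMap h = w}) ∧
    (L ∈ FSPDA n Λ ↔ ∃ (B : Type) (_ : Finite B) (C : Language B) (g : B → Fin (n + 1))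
      (h : B → List Λ), C.IsContextFree ∧
        L = {w | ∃ u ∈ C, (∃ k, u.map g = pattern n k) ∧ u.flatMap h = w}) := by
  have a1 : L ∈ FSPDA n Λ → ∃ (B : Type) (_ : Finite B) (C : Language B) (g : B → Fin (n + 1))
      (h : B → List Λ), C.IsContextFree ∧
        L = {w | ∃ u ∈ C, (∃ k, u.map g = pattern n k) ∧ u.flatMap h = w} := by
    intro hL
    rw [FSPDA_iff] at hL
    obtain ⟨P, rfl⟩ := hL
    exact ⟨P.ι, P.finι, _, P.ann, _, acc_cf, lp_form P⟩
  have a2 : (∃ (B : Type) (_ : Finite B) (C : Language B) (g : B → Fin (n + 1))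
      (h : B → List Λ), C.IsContextFree ∧
        L = {w | ∃ u ∈ C, (∃ k, u.map g = pattern n k) ∧ u.flatMap h = w}) →
      ∃ (B : Type) (_ : Finite B) (C : Language B) (G : PRLG B (n + 1))
      (h : B → List Λ), C.IsContextFree ∧ L = {w | ∃ u ∈ C, u ∈ G.lang ∧ u.flatMap h = w} := by
    rintro ⟨B, hB, C, g, h, hC, rfl⟩
    refine ⟨B, hB, C, patG hB g, h, hC, ?_⟩
    ext w
    constructor
    · rintro ⟨u, h1, h2, h3⟩
      exact ⟨u, h1, patG_lang.2 h2, h3⟩
    · rintro ⟨u, h1, h2, h3⟩
      exact ⟨u, h1, patG_lang.1 h2, h3⟩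
  have a3 : (∃ (B : Type) (_ : Finite B) (C : Language B) (G : PRLG B (n + 1))
      (h : B → List Λ), C.IsContextFree ∧ L = {w | ∃ u ∈ C, u ∈ G.lang ∧ u.flatMap h = w}) →
      L ∈ FSPDA n Λ := by
    rintro ⟨B, hB, C, G, h, hC, rfl⟩
    exact main_dir hB C G h hC
  exact ⟨⟨fun hL => a2 (a1 hL), a3⟩, ⟨a1, fun hL => a3 (a2 hL)⟩⟩

end Pool.Agent.Q166.FS
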