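import Pool.Agent.Q166.FS.Auto
import Pool.Agent.Q166.FS.Gram

/-!
# Parallel right-linear grammars

Part of the characterisation of the families `FSPDA n` (MP_a569f2_lc; theorem of helper230, written by
helper166).
-/

set_option autoImplicit false

namespace Pool.Agent.Q166.FS

open Q222.FS

/-- An `m`-parallel right-linear grammar (Rosebrugh and Wood) over the alphabet `B`. The
nonterminals of the component `j` are the pairs of an element of `N` and `j`; `start` is the set of
the right-hand sides `A_1 ... A_m` of the start rules; `rules j` is the set of the rules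
`A → x A'` (written `(A, x, some A')`) and `A → x` (written `(A, x, none)`) of the component `j`. -/
structure PRLG (B : Type) (m : ℕ) where
  /-- the nonterminals (of every component) -/
  N : Type
  finN : Finite N
  /-- the right-hand sides of the start rules -/
  start : Set (Fin m → N)
  /-- the rules of the components -/
  rules : Fin m → Set (N × List B × Option N)
  finR : ∀ j, (rules j).Finite

/-- A derivation step: all components are rewritten at the same time. The state of a component is
the word derived so far and the nonterminal after it (`none` if there is none). -/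
def PRLG.Step {B : Type} {m : ℕ} (G : PRLG B m) (c c' : Fin m → List B × Option G.N) : Prop :=
  ∀ j, ∃ A x o, (c j).2 = some A ∧ (A, x, o) ∈ G.rules j ∧ c' j = ((c j).1 ++ x, o)

/-- The language: all words `w_1 ... w_m` such that `w_1, ..., w_m` are derived from the
nonterminals `A_1, ..., A_m` of a start rule. -/
def PRLG.lang {B : Type} {m : ℕ} (G : PRLG B m) : Set (List B) :=
  {w | ∃ S ∈ G.start, ∃ c : Fin m → List B × Option G.N,
    Relation.ReflTransGen G.Step (fun j => ([], some (S j))) c ∧ (∀ j, (c j).2 = none) ∧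
      w = (List.finRange m).flatMap fun j => (c j).1}

/-- derivations of a component in `k` steps -/
def Dk {N A : Type} (R : Set (N × List A × Option N)) : ℕ → Option N → List A → Prop
  | 0, o, w => o = none ∧ w = []
  | k + 1, o, w => ∃ X x o' w', o = some X ∧ (X, x, o') ∈ R ∧ w = x ++ w' ∧ Dk R k o' w'

section

variable {B : Type} {m : ℕ} {G : PRLG B m}

theorem steps_dk {c c' : Fin m → List B × Option G.N}
    (h : Relation.ReflTransGen G.Step c c') (hc : ∀ j, (c' j).2 = none) :
    ∃ k, ∀ j, ∃ w, Dk (G.rules j) k (c j).2 w ∧ (c' j).1 = (c j).1 ++ w := by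
  induction h using Relation.ReflTransGen.head_induction_on with
  | refl => exact ⟨0, fun j => ⟨[], ⟨hc j, rfl⟩, (List.append_nil _).symm⟩⟩
  | head h1 _ ih =>
    obtain ⟨k, ih⟩ := ih
    refine ⟨k + 1, fun j => ?_⟩
    obtain ⟨A, x, o, h2, h3, h4⟩ := h1 j
    obtain ⟨w, h5, h6⟩ := ih j
    rw [h4] at h5 h6
    exact ⟨x ++ w, ⟨A, x, o, w, h2, h3, rfl, h5⟩, by rw [h6, List.append_assoc]⟩

theorem dk_steps (k : ℕ) {c : Fin m → List B × Option G.N} {w : Fin m → List B}
    (h : ∀ j, Dk (G.rules j) k (c j).2 (w j)) :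
    Relation.ReflTransGen G.Step c (fun j => ((c j).1 ++ w j, none)) := by
  induction k generalizing c w with
  | zero =>
    have : (fun j => ((c j).1 ++ w j, (none : Option G.N))) = c := by
      funext j
      obtain ⟨h1, h2⟩ := h j
      rw [h2, List.append_nil, ← h1]
    rw [this]
  | succ k ih =>
    choose A x o w' h1 h2 h3 h4 using h
    have h5 : G.Step c (fun j => ((c j).1 ++ x j, o j)) :=
      fun j => ⟨A j, x j, o j, h1 j, h2 j, rfl⟩
    have h6 := ih (c := fun j => ((c j).1 ++ x j, o j)) (w := w') h4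
    have h7 : (fun j => ((c j).1 ++ w j, (none : Option G.N))) =
        fun j => (((c j).1 ++ x j) ++ w' j, none) := by
      funext j
      rw [h3 j, List.append_assoc]
    rw [h7]
    exact h6.head h5

theorem mem_lang_iff {w : List B} : w ∈ G.lang ↔ ∃ S ∈ G.start, ∃ (k : ℕ) (f : Fin m → List B),
    (∀ j, Dk (G.rules j) k (some (S j)) (f j)) ∧ w = (List.finRange m).flatMap f := by
  constructor
  · rintro ⟨S, hS, c, h1, h2, rfl⟩
    obtain ⟨k, h3⟩ := steps_dk h1 h2
    choose f h4 h5 using h3
    refine ⟨S, hS, k, f, h4, ?_⟩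
    congr 1
    funext j
    exact h5 j
  · rintro ⟨S, hS, k, f, h1, rfl⟩
    exact ⟨S, hS, _, dk_steps k (c := fun j => ([], some (S j))) h1, fun j => rfl, rfl⟩

end

/-! ### Concatenations -/

/-- words which are concatenations of words with the property `P j`, for `j` in a list -/
def Cat {J X : Type} (P : J → List X → Prop) : List J → List X → Prop
  | [], w => w = []
  | j :: js, w => ∃ u v, P j u ∧ w = u ++ v ∧ Cat P js v

theorem cat_iff {J X : Type} {P : J → List X → Prop} {js : List J} (hj : js.Nodup)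
    {w : List X} : Cat P js w ↔ ∃ f : J → List X, (∀ j ∈ js, P j (f j)) ∧ w = js.flatMap f := by
  classical
  induction js generalizing w with
  | nil =>
    constructor
    · intro h
      exact ⟨fun _ => [], by simp, h⟩
    · rintro ⟨f, -, h⟩
      exact h
  | cons j js ih =>
    rw [List.nodup_cons] at hj
    constructor
    · rintro ⟨u, v, h1, rfl, h2⟩
      obtain ⟨f, h3, rfl⟩ := (ih hj.2).1 h2
      have h4 : ∀ i ∈ js, Function.update f j u i = f i := by
        intro i hi
        apply Function.update_of_ne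
        rintro rfl
        exact hj.1 hi
      refine ⟨Function.update f j u, ?_, ?_⟩
      · intro i hi
        rcases List.mem_cons.1 hi with rfl | hi
        · rw [Function.update_self]
          exact h1
        · rw [h4 i hi]
          exact h3 i hi
      · rw [List.flatMap_cons, Function.update_self]
        congr 1
        exact (List.flatMap_congr fun i hi => (h4 i hi)).symm
    · rintro ⟨f, h1, rfl⟩
      exact ⟨f j, js.flatMap f, h1 j List.mem_cons_self, rfl,
        (ih hj.2).2 ⟨f, fun i hi => h1 i (List.mem_cons_of_mem _ hi), rfl⟩⟩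

/-! ### Padded derivations -/

/-- the padded word -/
def pad {B : Type} (c : ℕ) (x : List B) : List (Option B) :=
  x.map some ++ List.replicate (c + 1 - x.length) none

theorem pad_length {B : Type} {c : ℕ} {x : List B} (h : x.length ≤ c) :
    (pad c x).length = c + 1 := by
  unfold pad
  rw [List.length_append, List.length_map, List.length_replicate]
  omega

theorem pad_erase {B : Type} (c : ℕ) (x : List B) : (pad c x).filterMap id = x := by
  unfold pad
  rw [List.filterMap_append, List.filterMap_map]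
  have h1 : (id ∘ some : B → Option B) = some := rfl
  rw [h1, List.filterMap_some]
  have h2 : (List.replicate (c + 1 - x.length) (none : Option B)).filterMap id = [] := by
    rw [List.filterMap_eq_nil_iff]
    intro a ha
    rw [List.eq_of_mem_replicate ha]
    rfl
  rw [h2, List.append_nil]

/-- the padded rules -/
def padR {N B : Type} (c : ℕ) (R : Set (N × List B × Option N)) :
    Set (N × List (Option B) × Option N) := {ρ | ∃ x, (ρ.1, x, ρ.2.2) ∈ R ∧ ρ.2.1 = pad c x}

theorem dk_pad {N B : Type} {c : ℕ} {R : Set (N × List B × Option N)} {k : ℕ} {o : Option N}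
    {w : List B} (h : Dk R k o w) : ∃ e, Dk (padR c R) k o e ∧ e.filterMap id = w := by
  induction k generalizing o w with
  | zero =>
    obtain ⟨rfl, rfl⟩ := h
    exact ⟨[], ⟨rfl, rfl⟩, rfl⟩
  | succ k ih =>
    obtain ⟨X, x, o', w', rfl, h1, rfl, h2⟩ := h
    obtain ⟨e, h3, rfl⟩ := ih h2
    refine ⟨pad c x ++ e, ⟨X, pad c x, o', e, rfl, ⟨x, h1, rfl⟩, rfl, h3⟩, ?_⟩
    rw [List.filterMap_append, pad_erase]

theorem pad_dk {N B : Type} {c : ℕ} {R : Set (N × List B × Option N)}
    (hR : ∀ ρ ∈ R, ρ.2.1.length ≤ c) {k : ℕ} {o : Option N}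
    {e : List (Option B)} (h : Dk (padR c R) k o e) :
    Dk R k o (e.filterMap id) ∧ e.length = (c + 1) * k := by
  induction k generalizing o e with
  | zero =>
    obtain ⟨rfl, rfl⟩ := h
    exact ⟨⟨rfl, rfl⟩, rfl⟩
  | succ k ih =>
    obtain ⟨X, y, o', e', rfl, ⟨x, h1, h1'⟩, rfl, h2⟩ := h
    obtain ⟨h3, h4⟩ := ih h2
    have h5 : y = pad c x := h1'
    subst h5
    refine ⟨⟨X, x, o', _, rfl, h1, ?_, h3⟩, ?_⟩
    · rw [List.filterMap_append, pad_erase]
    · rw [List.length_append, h4, pad_length (hR _ h1)]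
      ring

theorem dk_bd {N A : Type} {m : ℕ} {R : Fin m → Set (N × List A × Option N)}
    (h : ∀ j, (R j).Finite) : ∃ c : ℕ, ∀ j, ∀ ρ ∈ R j, ρ.2.1.length ≤ c := by
  obtain ⟨c, hc⟩ := ((Set.finite_iUnion h).image fun ρ => ρ.2.1.length).bddAbove
  exact ⟨c, fun j ρ hρ => hc ⟨ρ, Set.mem_iUnion.2 ⟨j, hρ⟩, rfl⟩⟩

/-! ### The automaton of a parallel right-linear grammar -/

section

variable {N A : Type} {m : ℕ} (R : Fin m → Set (N × List A × Option N))

/-- the states: the start rule, the current component, the next components, the nonterminal, the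
word to be read before it -/
abbrev Raw (N A : Type) (m : ℕ) : Type :=
  (Fin m → N) × Fin m × List (Fin m) × Option N × List A

/-- the transitions -/
inductive AT : Raw N A m → Option (A × Fin m) → Raw N A m → Prop
  | rd {S : Fin m → N} {j : Fin m} {js : List (Fin m)} {o : Option N} {a : A} {l : List A} :
      AT (S, j, js, o, a :: l) (some (a, j)) (S, j, js, o, l)
  | ap {S : Fin m → N} {j : Fin m} {js : List (Fin m)} {X : N} {l : List A} {o' : Option N} :
      (X, l, o') ∈ R j → AT (S, j, js, some X, []) none (S, j, js, o', l)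
  | nx {S : Fin m → N} {j j' : Fin m} {js : List (Fin m)} :
      AT (S, j, j' :: js, none, []) none (S, j', js, some (S j'), [])

/-- the automaton -/
def au (start : Set (Fin m → N)) (hN : Finite N) (hA : Finite A) (D : ℕ) : Au (A × Fin m) where
  Q := {x : Raw N A m // x.2.2.1.length ≤ m ∧ x.2.2.2.2.length ≤ D}
  finQ := by
    have h1 : Finite {l : List (Fin m) // l.length ≤ m} :=
      (List.finite_length_le (Fin m) m).to_subtype
    have h2 : Finite {l : List A // l.length ≤ D} := (List.finite_length_le A D).to_subtype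
    refine Finite.of_injective (β := (Fin m → N) × Fin m × {l : List (Fin m) // l.length ≤ m} ×
      Option N × {l : List A // l.length ≤ D})
      (fun x => (x.1.1, x.1.2.1, ⟨x.1.2.2.1, x.2.1⟩, x.1.2.2.2.1, ⟨x.1.2.2.2.2, x.2.2⟩)) ?_
    rintro ⟨⟨a, b, c, d, e⟩, hx⟩ ⟨⟨a', b', c', d', e'⟩, hy⟩ he
    simp only [Prod.mk.injEq, Subtype.mk.injEq] at he
    obtain ⟨rfl, rfl, rfl, rfl, rfl⟩ := he
    rfl
  tr p o q := AT R p.1 o q.1
  I p := ∃ S j js, S ∈ start ∧ List.finRange m = j :: js ∧ p.1 = (S, j, js, some (S j), [])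
  F q := ∃ S j, q.1 = (S, j, [], none, [])

/-- the rest of a word: the next components -/
def Tl (S : Fin m → N) : List (Fin m) → List (A × Fin m) → Prop :=
  Cat fun j x => ∃ k e, Dk (R j) k (some (S j)) e ∧ x = e.map fun a => (a, j)

/-- the words accepted from a state -/
def SS (p : Raw N A m) (w : List (A × Fin m)) : Prop :=
  ∃ k e w', Dk (R p.2.1) k p.2.2.2.1 e ∧ w = ((p.2.2.2.2 ++ e).map fun a => (a, p.2.1)) ++ w' ∧
    Tl R p.1 p.2.2.1 w'

variable {R} {start : Set (Fin m → N)} {hN : Finite N} {hA : Finite A} {D : ℕ}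

theorem path_SS {p q : (au R start hN hA D).Q} {w : List (A × Fin m)}
    (h : (au R start hN hA D).Path p w q) (hq : (au R start hN hA D).F q) : SS R p.1 w := by
  induction h with
  | nil p =>
    obtain ⟨S, j, hp⟩ := hq
    rw [hp]
    exact ⟨0, [], [], ⟨rfl, rfl⟩, rfl, rfl⟩
  | @cons p m' q o w h _ ih =>
    have ih := ih hq
    have h' : AT R p.1 o m'.1 := h
    generalize p.1 = p1 at h'
    generalize m'.1 = m1 at h' ih
    cases h' with
    | rd =>
      obtain ⟨k, e, w', h1, rfl, h3⟩ := ih
      exact ⟨k, e, w', h1, rfl, h3⟩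
    | ap hr =>
      obtain ⟨k, e, w', h1, rfl, h3⟩ := ih
      exact ⟨k + 1, _ ++ e, w', ⟨_, _, _, e, rfl, hr, rfl, h1⟩, rfl, h3⟩
    | nx =>
      obtain ⟨k, e, w', h1, rfl, h3⟩ := ih
      exact ⟨0, [], _, ⟨rfl, rfl⟩, rfl, _, w', ⟨k, e, h1, rfl⟩, rfl, h3⟩

theorem path_rd {S : Fin m → N} {j : Fin m} {js : List (Fin m)} {o : Option N} {l : List A}
    (h1 : js.length ≤ m) (h2 : l.length ≤ D) :
    (au R start hN hA D).Path ⟨(S, j, js, o, l), h1, h2⟩ (l.map fun a => (a, j))
      ⟨(S, j, js, o, []), h1, Nat.zero_le _⟩ := by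
  induction l with
  | nil => exact .nil _
  | cons a l ih =>
    have h3 : l.length ≤ D := (Nat.le_succ _).trans h2
    exact Au.Path.cons (A := au R start hN hA D) (o := some (a, j))
      (m := ⟨(S, j, js, o, l), h1, h3⟩) AT.rd (ih h3)

theorem path_dk (hR : ∀ j, ∀ ρ ∈ R j, ρ.2.1.length ≤ D) {S : Fin m → N} {j : Fin m}
    {js : List (Fin m)} (h1 : js.length ≤ m) {k : ℕ} {o : Option N} {e : List A}
    (h : Dk (R j) k o e) :
    (au R start hN hA D).Path ⟨(S, j, js, o, []), h1, Nat.zero_le _⟩ (e.map fun a => (a, j))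
      ⟨(S, j, js, none, []), h1, Nat.zero_le _⟩ := by
  induction k generalizing o e with
  | zero =>
    obtain ⟨rfl, rfl⟩ := h
    exact .nil _
  | succ k ih =>
    obtain ⟨X, x, o', w', rfl, h2, rfl, h3⟩ := h
    have h4 : x.length ≤ D := hR j _ h2
    rw [List.map_append]
    exact Au.Path.cons (A := au R start hN hA D) (o := none)
      (m := ⟨(S, j, js, o', x), h1, h4⟩) (AT.ap h2) ((path_rd h1 h4).append (ih h3))

theorem path_tl (hR : ∀ j, ∀ ρ ∈ R j, ρ.2.1.length ≤ D) {S : Fin m → N}
    {js : List (Fin m)} {j : Fin m} (h1 : js.length ≤ m) {w : List (A × Fin m)}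
    (h : Tl R S js w) : ∃ q, (au R start hN hA D).F q ∧
    (au R start hN hA D).Path ⟨(S, j, js, none, []), h1, Nat.zero_le _⟩ w q := by
  induction js generalizing j w with
  | nil =>
    have h' : w = [] := h
    subst h'
    exact ⟨_, ⟨S, j, rfl⟩, .nil _⟩
  | cons j' js ih =>
    obtain ⟨u, v, ⟨k, e, h2, rfl⟩, rfl, h3⟩ := h
    have h4 : js.length ≤ m := (Nat.le_succ _).trans h1
    obtain ⟨q, h5, h6⟩ := ih (j := j') h4 h3
    exact ⟨q, h5, Au.Path.cons (A := au R start hN hA D) (o := none)
      (m := ⟨(S, j', js, some (S j'), []), h4, Nat.zero_le _⟩) AT.nx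
        ((path_dk hR h4 h2).append h6)⟩

theorem au_lang (hR : ∀ j, ∀ ρ ∈ R j, ρ.2.1.length ≤ D) (hm : 0 < m) {w : List (A × Fin m)} :
    (∃ p q, (au R start hN hA D).I p ∧ (au R start hN hA D).F q ∧
      (au R start hN hA D).Path p w q) ↔
    ∃ S ∈ start, ∃ (k : Fin m → ℕ) (e : Fin m → List A),
      (∀ j, Dk (R j) (k j) (some (S j)) (e j)) ∧
      w = (List.finRange m).flatMap fun j => (e j).map fun a => (a, j) := by
  have key : ∀ S, Tl R S (List.finRange m) w ↔ ∃ (k : Fin m → ℕ) (e : Fin m → List A),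
      (∀ j, Dk (R j) (k j) (some (S j)) (e j)) ∧
      w = (List.finRange m).flatMap fun j => (e j).map fun a => (a, j) := by
    intro S
    unfold Tl
    rw [cat_iff (List.nodup_finRange m)]
    constructor
    · rintro ⟨f, h1, rfl⟩
      choose k e h2 h3 using fun j => h1 j (List.mem_finRange j)
      refine ⟨k, e, h2, ?_⟩
      congr 1
      funext j
      exact h3 j
    · rintro ⟨k, e, h1, rfl⟩
      exact ⟨_, fun j _ => ⟨k j, e j, h1 j, rfl⟩, rfl⟩
  have hlen : (List.finRange m).length = m := List.length_finRange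
  constructor
  · rintro ⟨p, q, ⟨S, j, js, hS, h1, h2⟩, hq, h3⟩
    refine ⟨S, hS, (key S).1 ?_⟩
    have h4 := path_SS h3 hq
    rw [h2] at h4
    obtain ⟨k, e, w', h5, rfl, h6⟩ := h4
    rw [h1]
    exact ⟨_, w', ⟨k, e, h5, rfl⟩, rfl, h6⟩
  · rintro ⟨S, hS, h1⟩
    have h2 := (key S).2 h1
    cases hf : List.finRange m with
    | nil =>
      rw [hf] at hlen
      have : m = 0 := hlen.symm
      omega
    | cons j js =>
      have hl : js.length ≤ m := by
        rw [hf, List.length_cons] at hlen
        omega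
      rw [hf] at h2
      obtain ⟨u, v, ⟨k, e, h3, rfl⟩, rfl, h4⟩ := h2
      obtain ⟨q, h5, h6⟩ := path_tl (start := start) (hN := hN) (hA := hA) hR (j := j) hl h4
      exact ⟨⟨(S, j, js, some (S j), []), hl, Nat.zero_le _⟩, q, ⟨S, j, js, hS, hf, rfl⟩, h5,
        (path_dk hR hl h3).append h6⟩

end

end Pool.Agent.Q166.FS
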